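import Pool.Agent.L7h93.TH.Asm
import Pool.Agent.L7h93.TH.Jet
import Pool.Agent.L7h21.TH.Tay
import Pool.Agent.L7h21.TH.Dual
import Pool.Agent.L7h21.TH.Idp
import Pool.Agent.L7h49.TH.Dec
import Pool.Agent.L7h49.TH.Uni
import Pool.Agent.L7h49.TH.Zd
import Pool.Agent.L7h49.TH.All
import Pool.Agent.L7h53.TH.Ann
import Pool.Agent.L7h53.TH.Cnt
import Pool.Agent.L7h53.TH.Mul
import Pool.Agent.L7h53.TH.Qpt
import Pool.Agent.L7h10.TH.Up
import Pool.Agent.L7h35.TH.Fac
import Pool.Agent.L7h35.TH.Expd
import Pool.Agent.L7h35.TH.Expv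
import Pool.Agent.L7h35.TH.Pol

set_option autoImplicit false

/-!
# Moments up to an explicit finite order determine complex discrete Gaussians

In every dimension `g ≥ 1` two complex discrete Gaussians with the same moments of order at most
`d(g) = 4 g² (3 g)^(g-1) + 2` are equal; `d(1) = 6`. This answers the second question of the problem.

Proof. Let `p` be a discrete Gaussian with the parameters `(u, B)`. For polynomials `P`, `R` the number
`G(P, R) = ∑ p(n) p(m) P(n+m) R(n-m)` is a polynomial in the moments of order at most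
`deg P + deg R`, and the addition theorem gives
`G(P, R) = θ(u, B)⁻² ∑_σ A_σ(P) B_σ(R)`, a sum over the `2^g` residue classes `σ` modulo two, where `A_σ`,
`B_σ` are values of derivatives of theta functions of order two at `u` and at `0`. A nonzero theta
function of order two vanishes at every point to order at most `K = 2 g² (3 g)^(g-1)`: otherwise its
multiples by the theta functions of order `3 K - 2` and the monomials of degree at most `K` in
functions of order three with prescribed first order jets would be more than `(3 K)^g` linearly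
independent theta functions of order `3 K`. That all first order jets are values of theta functions of
order three follows from the products `θ(x + a) θ(x + b) θ(x - a - b)` of translates. So the `A_σ`, and
the `B_σ`, are linearly independent on the polynomials of degree at most `K`, there are dual
polynomials `P_τ`, `R_τ` of degree at most `K`, and `G(P, R) = ∑_τ G(P, R_τ) G(P_τ, R)` for this and for every
other discrete Gaussian with the same moments up to the order `2 K`. With `P`, `R` powers of one linear
form of degrees larger than `K`, one of them even, this determines the moments of order `k > 2 K + 2`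
from the moments of lower order.
-/

namespace Pool.Agent.Results.MP_e16cda_ag.FiniteOrder

open Pool.Agent.Results.MP_e16cda_ag.ThreeMomentsFail Pool.Agent.L7h93.TH

theorem main_all : S_MAIN := by
  have hDEC : S_DEC := Pool.Agent.L7h49.TH.s_DEC
  have hDV : S_DV := Pool.Agent.L7h21.TH.s_DV
  have hTAY : S_TAY := Pool.Agent.L7h21.TH.s_TAY
  have hDER : S_DER := Pool.Agent.L7h21.TH.s_DER
  have hUNI : S_UNI := Pool.Agent.L7h49.TH.s_UNI
  have hZD : S_ZD := Pool.Agent.L7h49.TH.s_ZD
  have hMUL : S_MUL := Pool.Agent.L7h53.TH.s_MUL hDEC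
  have hUP : S_UP := Pool.Agent.L7h10.TH.s_UP hDEC
  have hLOW : S_LOW := Pool.Agent.L7h10.TH.s_LOW hDEC hUNI
  have hQPT : S_QPT := Pool.Agent.L7h53.TH.s_QPT hDEC hDV
  have hANN : S_ANN := Pool.Agent.L7h53.TH.s_ANN hDEC hDV hDER hUNI hZD hQPT
  have hJET : S_JET := s_JET hDEC hDV hTAY hDER hMUL hANN
  have hMB : S_MB := Pool.Agent.L7h53.TH.s_MB hDEC hDER hMUL hUP hLOW hJET hZD
  have hIDP : S_IDP := Pool.Agent.L7h21.TH.s_IDP hDEC hTAY hUNI hMB
  have hDCF : S_DCF := s_DCF hDEC
  have hFAC : S_FAC := Pool.Agent.L7h35.TH.s_FAC hDCF s_SUM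
  exact main hDCF hFAC hIDP Pool.Agent.L7h21.TH.s_DUAL (Pool.Agent.L7h35.TH.s_EXPD s_SUM)
    (Pool.Agent.L7h35.TH.s_EXPV s_SUM) (Pool.Agent.L7h35.TH.s_POL s_SUM)
    (Pool.Agent.L7h49.TH.s_ALL hUNI)

theorem result : ∀ g : ℕ, 1 ≤ g → MomentsDetermine g (4 * g ^ 2 * (3 * g) ^ (g - 1) + 2) := by
  intro g hg
  have h := main_all g hg
  have e : 2 * Kg g + 2 = 4 * g ^ 2 * (3 * g) ^ (g - 1) + 2 := by
    unfold Kg
    ring
  rw [e] at h
  exact h

end Pool.Agent.Results.MP_e16cda_ag.FiniteOrder
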